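import Pool.Agent.H889R3.SA.Stmts

set_option autoImplicit false
set_option maxHeartbeats 4000000

namespace Pool.Agent.H603R3.SAI

open Finset Pool.Agent.H572R2 Pool.Agent.H572R4.QA Pool.Agent.H889R3.SA

variable {N : ℕ}

lemma mix_insert {S : Finset (Fin N)} {j : Fin N} (hj : j ∉ S) (a x : Fin N → Bool) (b : Bool) :
    mix (insert j S) (Function.update a j b) x = mix S a (Function.update x j b) := by
  funext k
  unfold mix
  by_cases hk : k = j
  · subst hk
    simp [hj]
  · simp [hk]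

lemma rs_F {S : Finset (Fin N)} {j : Fin N} (hj : j ∉ S) (a : Fin N → Bool) (b : Bool)
    (f : (Fin N → Bool) → ℝ) :
    (fun x => f (mix (insert j S) (Function.update a j b) x)) = rs j b (fun x => f (mix S a x)) := by
  funext x
  unfold rs
  rw [mix_insert hj]

lemma rs_rs (F : (Fin N → Bool) → ℝ) (j : Fin N) (b b' : Bool) :
    rs j b' (rs j b F) = rs j b F := by
  funext x
  unfold rs
  rw [Function.update_idem]

lemma fh_rs_mem (hB1 : TaskB1) (F : (Fin N → Bool) → ℝ) (j : Fin N) (b : Bool)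
    (T : Finset (Fin N)) (hT : j ∈ T) : fh (rs j b F) T = 0 := by
  have h := (hB1 N (rs j b F) j (T.erase j) (Finset.notMem_erase j T)).1
  rw [rs_rs, Finset.insert_erase hT] at h
  linarith

lemma QQ_split (hB1 : TaskB1) (c : ℕ → ℝ) (F h : (Fin N → Bool) → ℝ) (j : Fin N) :
    QQ c F h = (QQ c (rs j true F) h + QQ c (rs j false F) h) / 2 +
      ∑ T : Finset (Fin N), if j ∈ T then c T.card * (fh F T * fh h T) else 0 := by
  unfold QQ
  rw [← sum_add_distrib, sum_div, ← sum_add_distrib]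
  refine sum_congr rfl fun T _ => ?_
  by_cases hT : j ∈ T
  · have hne : T.Nonempty := ⟨j, hT⟩
    rw [if_pos hne, if_pos hne, if_pos hne, if_pos hT, fh_rs_mem hB1 F j true T hT,
      fh_rs_mem hB1 F j false T hT]
    ring
  · rw [if_neg hT]
    obtain ⟨h1, h2⟩ := hB1 N F j T hT
    rw [h1, h2]
    split_ifs <;> ring

lemma abs_R (hB3 : TaskB3) (c : ℕ → ℝ) (hc0 : ∀ t ≤ N, 0 ≤ c t) (hc1 : ∀ t ≤ N, c t ≤ 1)
    (F h : (Fin N → Bool) → ℝ) (j : Fin N) :
    |∑ T : Finset (Fin N), if j ∈ T then c T.card * (fh F T * fh h T) else 0| ≤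
      Real.sqrt (inf1 F j) * Real.sqrt (inf1 h j) := by
  have hcard : ∀ T : Finset (Fin N), T.card ≤ N := fun T => by
    simpa using T.card_le_univ
  have h1 : |∑ T : Finset (Fin N), if j ∈ T then c T.card * (fh F T * fh h T) else 0| ≤
      ∑ T : Finset (Fin N), (if j ∈ T then |fh F T| else 0) * (if j ∈ T then |fh h T| else 0) := by
    refine (Finset.abs_sum_le_sum_abs _ _).trans (sum_le_sum fun T _ => ?_)
    split_ifs with hT
    · rw [abs_mul, abs_mul, abs_of_nonneg (hc0 _ (hcard T))]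
      calc c T.card * (|fh F T| * |fh h T|) ≤ 1 * (|fh F T| * |fh h T|) := by
            gcongr
            exact hc1 _ (hcard T)
        _ = _ := one_mul _
    · simp
  refine h1.trans ((Real.sum_mul_le_sqrt_mul_sqrt _ _ _).trans (le_of_eq ?_))
  rw [(hB3 N F).1 j, (hB3 N h).1 j]
  congr 2
  · refine sum_congr rfl fun T _ => ?_
    split_ifs
    · rw [sq_abs]
    · norm_num
  · refine sum_congr rfl fun T _ => ?_
    split_ifs
    · rw [sq_abs]
    · norm_num

lemma QQ_nonneg (c : ℕ → ℝ) (hc0 : ∀ t ≤ N, 0 ≤ c t) (F : (Fin N → Bool) → ℝ) :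
    0 ≤ QQ c F F := by
  have hcard : ∀ T : Finset (Fin N), T.card ≤ N := fun T => by
    simpa using T.card_le_univ
  unfold QQ
  refine sum_nonneg fun T _ => ?_
  split_ifs
  · exact mul_nonneg (hc0 _ (hcard T)) (mul_self_nonneg _)
  · exact le_rfl

lemma abs_QQ_le (c : ℕ → ℝ) (hc0 : ∀ t ≤ N, 0 ≤ c t) (F h : (Fin N → Bool) → ℝ) :
    |QQ c F h| ≤ Real.sqrt (QQ c F F) * Real.sqrt (QQ c h h) := by
  have hcard : ∀ T : Finset (Fin N), T.card ≤ N := fun T => by
    simpa using T.card_le_univ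
  unfold QQ
  have h1 : |∑ T : Finset (Fin N), if T.Nonempty then c T.card * (fh F T * fh h T) else 0| ≤
      ∑ T : Finset (Fin N), (if T.Nonempty then Real.sqrt (c T.card) * |fh F T| else 0) *
        (if T.Nonempty then Real.sqrt (c T.card) * |fh h T| else 0) := by
    refine (Finset.abs_sum_le_sum_abs _ _).trans (sum_le_sum fun T _ => ?_)
    split_ifs with hT
    · rw [abs_mul, abs_mul, abs_of_nonneg (hc0 _ (hcard T))]
      have := Real.mul_self_sqrt (hc0 _ (hcard T))
      calc c T.card * (|fh F T| * |fh h T|)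
          = (Real.sqrt (c T.card) * Real.sqrt (c T.card)) * (|fh F T| * |fh h T|) := by rw [this]
        _ ≤ _ := le_of_eq (by ring)
    · simp
  refine h1.trans ((Real.sum_mul_le_sqrt_mul_sqrt _ _ _).trans (le_of_eq ?_))
  congr 2
  · refine sum_congr rfl fun T _ => ?_
    split_ifs
    · rw [mul_pow, Real.sq_sqrt (hc0 _ (hcard T)), sq_abs]; ring
    · norm_num
  · refine sum_congr rfl fun T _ => ?_
    split_ifs
    · rw [mul_pow, Real.sq_sqrt (hc0 _ (hcard T)), sq_abs]; ring
    · norm_num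

lemma inf1_nonneg' (F : (Fin N → Bool) → ℝ) (j : Fin N) : 0 ≤ inf1 F j := by
  unfold inf1
  have : 0 ≤ EE (fun x => dd F j x ^ 2) := EE_nonneg fun x => sq_nonneg _
  linarith

/-- the cost function -/
noncomputable def Ps (f : (Fin N → Bool) → ℝ) (w : Fin N → (Fin N → Bool) → ℝ) (al τ : ℝ)
    (S : Finset (Fin N)) (a : Fin N → Bool) : ℝ :=
  (al * ∑ i ∈ Sᶜ, inf1 (fun x => f (mix S a x)) i + (∑ i ∈ Sᶜ, Ex S a (w i)) / (al * τ)) / 2

lemma Ps_nonneg (f : (Fin N → Bool) → ℝ) (w : Fin N → (Fin N → Bool) → ℝ)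
    (hw : ∀ i x, 0 ≤ w i x) (al τ : ℝ) (hal : 0 < al) (hτ : 0 < τ)
    (S : Finset (Fin N)) (a : Fin N → Bool) : 0 ≤ Ps f w al τ S a := by
  unfold Ps
  have h1 : 0 ≤ ∑ i ∈ Sᶜ, inf1 (fun x => f (mix S a x)) i := sum_nonneg fun i _ => inf1_nonneg' _ _
  have h2 : 0 ≤ ∑ i ∈ Sᶜ, Ex S a (w i) := sum_nonneg fun i _ => EE_nonneg fun x => hw i _
  positivity

lemma Ps_split (f : (Fin N → Bool) → ℝ) (w : Fin N → (Fin N → Bool) → ℝ) (al τ : ℝ)
    (S : Finset (Fin N)) (a : Fin N → Bool) (j : Fin N) (hj : j ∉ S) :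
    Ps f w al τ S a = (Ps f w al τ (insert j S) (Function.update a j true) +
      Ps f w al τ (insert j S) (Function.update a j false)) / 2 +
      (al * inf1 (fun x => f (mix S a x)) j + Ex S a (w j) / (al * τ)) / 2 := by
  unfold Ps
  rw [rs_F hj, rs_F hj]
  have hc : (insert j S)ᶜ = Sᶜ.erase j := by
    rw [Finset.compl_insert]
  have hjc : j ∈ Sᶜ := Finset.mem_compl.2 hj
  rw [hc, ← Finset.add_sum_erase Sᶜ (fun i => inf1 (fun x => f (mix S a x)) i) hjc,
    ← Finset.add_sum_erase Sᶜ (fun i => Ex S a (w i)) hjc]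
  have e1 : ∑ i ∈ Sᶜ.erase j, inf1 (rs j true (fun x => f (mix S a x))) i +
      ∑ i ∈ Sᶜ.erase j, inf1 (rs j false (fun x => f (mix S a x))) i =
      2 * ∑ i ∈ Sᶜ.erase j, inf1 (fun x => f (mix S a x)) i := by
    rw [← sum_add_distrib, mul_sum]
    exact sum_congr rfl fun i hi => inf1_rs_add _ i j (Finset.ne_of_mem_erase hi)
  have e2 : ∑ i ∈ Sᶜ.erase j, Ex (insert j S) (Function.update a j true) (w i) +
      ∑ i ∈ Sᶜ.erase j, Ex (insert j S) (Function.update a j false) (w i) =
      2 * ∑ i ∈ Sᶜ.erase j, Ex S a (w i) := by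
    rw [← sum_add_distrib, mul_sum]
    refine sum_congr rfl fun i _ => ?_
    rw [Ex_split hj a (w i)]
    ring
  have e1' : ∑ i ∈ Sᶜ.erase j, inf1 (rs j false (fun x => f (mix S a x))) i =
      2 * ∑ i ∈ Sᶜ.erase j, inf1 (fun x => f (mix S a x)) i -
      ∑ i ∈ Sᶜ.erase j, inf1 (rs j true (fun x => f (mix S a x))) i := by linarith
  have e2' : ∑ i ∈ Sᶜ.erase j, Ex (insert j S) (Function.update a j false) (w i) =
      2 * ∑ i ∈ Sᶜ.erase j, Ex S a (w i) -
      ∑ i ∈ Sᶜ.erase j, Ex (insert j S) (Function.update a j true) (w i) := by linarith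
  rw [e1', e2']
  ring

lemma cov_bound (hB1 : TaskB1) (hB3 : TaskB3) (c : ℕ → ℝ) (hc0 : ∀ t ≤ N, 0 ≤ c t)
    (hc1 : ∀ t ≤ N, c t ≤ 1) (f : (Fin N → Bool) → ℝ) (w : Fin N → (Fin N → Bool) → ℝ)
    (hw : ∀ i x, 0 ≤ w i x) (τ : ℝ) (hτ : 0 < τ) (B : ℝ)
    (hcold : ∀ (S : Finset (Fin N)) (a : Fin N → Bool), (∀ i ∈ Sᶜ, Ex S a (w i) ≤ τ) →
      QQ c (fun x => f (mix S a x)) (fun x => f (mix S a x)) ≤ B)
    (h : (Fin N → Bool) → ℝ) (I : ℝ) (hI0 : 0 ≤ I) (hI : ∀ l, Real.sqrt (inf1 h l) ≤ I)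
    (al : ℝ) (hal : 0 < al) :
    ∀ (n : ℕ) (S : Finset (Fin N)) (a : Fin N → Bool), Sᶜ.card = n →
      |QQ c (fun x => f (mix S a x)) h| ≤
        Real.sqrt B * Real.sqrt (QQ c h h) + Ps f w al τ S a * I := by
  intro n
  induction n with
  | zero =>
    intro S a hn
    have hE : Sᶜ = ∅ := Finset.card_eq_zero.1 hn
    have h1 := hcold S a (by rw [hE]; simp)
    have h2 := abs_QQ_le c hc0 (fun x => f (mix S a x)) h
    have h3 : Real.sqrt (QQ c (fun x => f (mix S a x)) (fun x => f (mix S a x))) *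
        Real.sqrt (QQ c h h) ≤ Real.sqrt B * Real.sqrt (QQ c h h) :=
      mul_le_mul_of_nonneg_right (Real.sqrt_le_sqrt h1) (Real.sqrt_nonneg _)
    have h4 := mul_nonneg (Ps_nonneg f w hw al τ hal hτ S a) hI0
    linarith
  | succ n ih =>
    intro S a hn
    by_cases hlt : ∀ i ∈ Sᶜ, Ex S a (w i) ≤ τ
    · have h1 := hcold S a hlt
      have h2 := abs_QQ_le c hc0 (fun x => f (mix S a x)) h
      have h3 : Real.sqrt (QQ c (fun x => f (mix S a x)) (fun x => f (mix S a x))) *
          Real.sqrt (QQ c h h) ≤ Real.sqrt B * Real.sqrt (QQ c h h) :=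
        mul_le_mul_of_nonneg_right (Real.sqrt_le_sqrt h1) (Real.sqrt_nonneg _)
      have h4 := mul_nonneg (Ps_nonneg f w hw al τ hal hτ S a) hI0
      linarith
    · push Not at hlt
      obtain ⟨j, hjc, hj⟩ := hlt
      have hjS : j ∉ S := Finset.mem_compl.1 hjc
      have hcard : (insert j S)ᶜ.card = n := by
        rw [Finset.compl_insert, Finset.card_erase_of_mem hjc, hn]
        rfl
      have i1 := ih (insert j S) (Function.update a j true) hcard
      have i2 := ih (insert j S) (Function.update a j false) hcard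
      rw [rs_F hjS] at i1 i2
      rw [Ps_split f w al τ S a j hjS, QQ_split hB1 c _ h j]
      have hR := abs_R hB3 c hc0 hc1 (fun x => f (mix S a x)) h j
      have hq : Real.sqrt (inf1 (fun x => f (mix S a x)) j) * Real.sqrt (inf1 h j) ≤
          (al * inf1 (fun x => f (mix S a x)) j + Ex S a (w j) / (al * τ)) / 2 * I := by
        set J := inf1 (fun x => f (mix S a x)) j with hJ
        have hJ0 : 0 ≤ J := inf1_nonneg' _ _
        have hE0 : 0 ≤ Ex S a (w j) := hτ.le.trans hj.le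
        refine mul_le_mul ?_ (hI j) (Real.sqrt_nonneg _) (by positivity)
        have h2 : 1 / al ≤ Ex S a (w j) / (al * τ) := by
          rw [div_le_div_iff₀ hal (by positivity)]
          nlinarith
        have h3 : 2 * Real.sqrt J ≤ al * J + 1 / al := by
          have h4 := sq_nonneg (Real.sqrt al * Real.sqrt J - 1 / Real.sqrt al)
          have h5 : 0 < Real.sqrt al := Real.sqrt_pos.2 hal
          have e : (Real.sqrt al * Real.sqrt J - 1 / Real.sqrt al) ^ 2
              = al * J - 2 * Real.sqrt J + 1 / al := by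
            rw [sub_sq, mul_pow, Real.sq_sqrt hal.le, Real.sq_sqrt hJ0, div_pow,
              Real.sq_sqrt hal.le]
            field_simp
          linarith
        linarith
      generalize (∑ T : Finset (Fin N), if j ∈ T then
        c T.card * (fh (fun x => f (mix S a x)) T * fh h T) else 0) = R at hR ⊢
      generalize QQ c (rs j true fun x => f (mix S a x)) h = q1 at i1 ⊢
      generalize QQ c (rs j false fun x => f (mix S a x)) h = q2 at i2 ⊢
      have k1 : |(q1 + q2) / 2 + R| ≤ (|q1| + |q2|) / 2 + |R| := by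
        refine (abs_add_le _ _).trans ?_
        rw [abs_div, abs_of_pos (by norm_num : (0 : ℝ) < 2)]
        have := abs_add_le q1 q2
        linarith
      have e : ((Ps f w al τ (insert j S) (Function.update a j true) +
          Ps f w al τ (insert j S) (Function.update a j false)) / 2 +
          (al * inf1 (fun x => f (mix S a x)) j + Ex S a (w j) / (al * τ)) / 2) * I =
          (Ps f w al τ (insert j S) (Function.update a j true) * I +
          Ps f w al τ (insert j S) (Function.update a j false) * I) / 2 +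
          (al * inf1 (fun x => f (mix S a x)) j + Ex S a (w j) / (al * τ)) / 2 * I := by ring
      rw [e]
      linarith

theorem taskI (hB1 : TaskB1) (hB3 : TaskB3) : TaskI := by
  intro N c hc0 hc1 f w hw k τ J hk hτ hJ hwk hinf hpos hcold
  set W := QQ c f f with hW
  have hsq : Real.sqrt (W / 4) * Real.sqrt W = W / 2 := by
    have e : W / 4 = (Real.sqrt W / 2) ^ 2 := by
      rw [div_pow, Real.sq_sqrt hpos.le]; norm_num
    have h1 : Real.sqrt (W / 4) = Real.sqrt W / 2 := by
      rw [e, Real.sqrt_sq (by positivity)]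
    rw [h1, div_mul_eq_mul_div, Real.mul_self_sqrt hpos.le]
  set s := Real.sqrt (J * k / τ) with hs
  have hs0 : 0 < s := Real.sqrt_pos.2 (by positivity)
  have hs2 : s ^ 2 = J * k / τ := Real.sq_sqrt (by positivity)
  have hemp : (fun x => f (mix (∅ : Finset (Fin N)) (fun _ => false) x)) = f := by
    funext x
    congr 1
  have key : ∀ I : ℝ, 0 ≤ I → (∀ l, Real.sqrt (inf1 f l) ≤ I) → W ≤ 2 * s * I := by
    intro I hI0 hI
    have h1 := cov_bound hB1 hB3 c hc0 hc1 f w hw τ hτ (W / 4) hcold f I hI0 hI (s / J)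
      (by positivity) (∅ᶜ : Finset (Fin N)).card ∅ (fun _ => false) rfl
    have hPs : Ps f w (s / J) τ ∅ (fun _ => false) ≤ s := by
      unfold Ps
      rw [hemp]
      have a1 : s / J * ∑ i ∈ (∅ : Finset (Fin N))ᶜ, inf1 f i ≤ s := by
        calc s / J * ∑ i ∈ (∅ : Finset (Fin N))ᶜ, inf1 f i ≤ s / J * J := by
              gcongr
              simpa using hinf
          _ = s := by field_simp
      have a2 : ∑ i ∈ (∅ : Finset (Fin N))ᶜ, Ex ∅ (fun _ => false) (w i) ≤ k := by
        unfold Ex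
        rw [Finset.compl_empty, ← EE_sum]
        calc EE (fun x => ∑ i, w i (mix ∅ (fun _ => false) x)) ≤ EE (fun _ => k) :=
              EE_mono fun x => hwk _
          _ = k := EE_const k
      have a3 : (∑ i ∈ (∅ : Finset (Fin N))ᶜ, Ex ∅ (fun _ => false) (w i)) / (s / J * τ) ≤ s := by
        rw [div_le_iff₀ (by positivity)]
        refine a2.trans (le_of_eq ?_)
        have : s * (s / J * τ) = s ^ 2 * τ / J := by ring
        rw [this, hs2]
        field_simp
      linarith
    rw [hemp, ← hW, abs_of_pos hpos, hsq] at h1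
    have h2 : Ps f w (s / J) τ ∅ (fun _ => false) * I ≤ s * I := by gcongr
    linarith
  rcases isEmpty_or_nonempty (Fin N) with hN | hN
  · exfalso
    have := key 0 le_rfl (fun l => (IsEmpty.false l).elim)
    linarith
  · obtain ⟨l, _, hl⟩ := Finset.exists_max_image (Finset.univ : Finset (Fin N)) (fun l => inf1 f l)
      Finset.univ_nonempty
    refine ⟨l, ?_⟩
    have h1 := key (Real.sqrt (inf1 f l)) (Real.sqrt_nonneg _)
      (fun l' => Real.sqrt_le_sqrt (hl l' (Finset.mem_univ _)))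
    have h2 := pow_le_pow_left₀ hpos.le h1 2
    rw [mul_pow, mul_pow, Real.sq_sqrt (inf1_nonneg' f l), hs2] at h2
    rw [div_le_iff₀ (by positivity)]
    have h3 := mul_le_mul_of_nonneg_right h2 hτ.le
    refine h3.trans (le_of_eq ?_)
    field_simp
    ring

end Pool.Agent.H603R3.SAI
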